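import Mathlib

set_option autoImplicit false

/-!
Strong divisibility sequences: the product of any `R` consecutive terms is divisible by the product of the first `R` terms.
-/

namespace Pool.Agent.Run7.h582.DS

open Finset

/-- a strong divisibility sequence of positive integers -/
def StrongDiv (u : ℕ → ℕ) : Prop :=
  (∀ k, 1 ≤ k → 1 ≤ u k) ∧ ∀ i j, 1 ≤ i → 1 ≤ j → Nat.gcd (u i) (u j) = u (Nat.gcd i j)

lemma StrongDiv.dvd {u : ℕ → ℕ} (h : StrongDiv u) {i j : ℕ} (hi : 1 ≤ i) (hj : 1 ≤ j) (hij : i ∣ j) : u i ∣ u j := by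
  have h1 := h.2 i j hi hj
  rw [Nat.gcd_eq_left hij] at h1
  rw [← h1]
  exact Nat.gcd_dvd_right _ _

/-- the terms divisible by `q` are those with an index divisible by `m`, or there are none -/
lemma StrongDiv.rank {u : ℕ → ℕ} (h : StrongDiv u) (q : ℕ) :
    (∀ k, 1 ≤ k → ¬ q ∣ u k) ∨ ∃ m, 1 ≤ m ∧ ∀ k, 1 ≤ k → (q ∣ u k ↔ m ∣ k) := by
  classical
  by_cases hex : ∃ k, 1 ≤ k ∧ q ∣ u k
  · right
    obtain ⟨hm1, hm2⟩ := Nat.find_spec hex
    refine ⟨Nat.find hex, hm1, fun k hk => ⟨fun hq => ?_, fun hd => hm2.trans (h.dvd hm1 hk hd)⟩⟩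
    have h1 : q ∣ u (Nat.gcd (Nat.find hex) k) := by
      rw [← h.2 _ _ hm1 hk]
      exact Nat.dvd_gcd hm2 hq
    have h2 : 1 ≤ Nat.gcd (Nat.find hex) k := Nat.gcd_pos_of_pos_left _ hm1
    have h3 : Nat.find hex ≤ Nat.gcd (Nat.find hex) k := Nat.find_min' hex ⟨h2, h1⟩
    have h4 : Nat.gcd (Nat.find hex) k = Nat.find hex := le_antisymm (Nat.gcd_le_left _ hm1) h3
    rw [← h4]
    exact Nat.gcd_dvd_right _ _
  · left
    intro k hk hq
    exact hex ⟨k, hk, hq⟩

lemma mult_le (m a R : ℕ) : ((Ioc 0 R).filter fun k => m ∣ k).card ≤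
    ((Ioc a (a + R)).filter fun k => m ∣ k).card := by
  have h1 : (Ioc 0 (a + R)).filter (fun k => m ∣ k) = (Ioc 0 a).filter (fun k => m ∣ k) ∪
      (Ioc a (a + R)).filter (fun k => m ∣ k) := by
    rw [← filter_union, Ioc_union_Ioc_eq_Ioc (Nat.zero_le a) (by omega)]
  have h2 := card_union_le ((Ioc 0 a).filter fun k => m ∣ k) ((Ioc a (a + R)).filter fun k => m ∣ k)
  rw [← h1, Nat.Ioc_filter_dvd_card_eq_div, Nat.Ioc_filter_dvd_card_eq_div] at h2
  rw [Nat.Ioc_filter_dvd_card_eq_div]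
  have h3 : a / m + R / m ≤ (a + R) / m := Nat.div_add_div_le_add_div
  omega

lemma StrongDiv.cnt {u : ℕ → ℕ} (h : StrongDiv u) (q a R : ℕ) : ((Ioc 0 R).filter fun k => q ∣ u k).card ≤
    ((Ioc a (a + R)).filter fun k => q ∣ u k).card := by
  rcases h.rank q with h1 | ⟨m, hm, h1⟩
  · have h2 : (Ioc 0 R).filter (fun k => q ∣ u k) = ∅ := by
      rw [filter_eq_empty_iff]
      intro k hk
      exact h1 k (mem_Ioc.1 hk).1
    rw [h2, card_empty]
    exact Nat.zero_le _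
  · have h2 : (Ioc 0 R).filter (fun k => q ∣ u k) = (Ioc 0 R).filter fun k => m ∣ k :=
      filter_congr fun k hk => h1 k (mem_Ioc.1 hk).1
    have h3 : (Ioc a (a + R)).filter (fun k => q ∣ u k) = (Ioc a (a + R)).filter fun k => m ∣ k :=
      filter_congr fun k hk => h1 k (by have := (mem_Ioc.1 hk).1; omega)
    rw [h2, h3]
    exact mult_le m a R

lemma fact_card {p x E : ℕ} (hp : p.Prime) (hx : x ≠ 0) (hE : x.factorization p ≤ E) :
    x.factorization p = ((Ioc 0 E).filter fun e => p ^ e ∣ x).card := by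
  have h1 : (Ioc 0 E).filter (fun e => p ^ e ∣ x) = Ioc 0 (x.factorization p) := by
    ext e
    rw [mem_filter, mem_Ioc, mem_Ioc, hp.pow_dvd_iff_le_factorization hx]
    omega
  rw [h1, Nat.card_Ioc]
  omega

/-- the product of consecutive terms -/
theorem StrongDiv.run {u : ℕ → ℕ} (h : StrongDiv u) (a R : ℕ) :
    ∏ k ∈ Ioc 0 R, u k ∣ ∏ k ∈ Ioc a (a + R), u k := by
  have hne1 : ∀ k ∈ Ioc 0 R, u k ≠ 0 := fun k hk => by
    have := h.1 k (mem_Ioc.1 hk).1
    omega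
  have hne2 : ∀ k ∈ Ioc a (a + R), u k ≠ 0 := fun k hk => by
    have := h.1 k (by have := (mem_Ioc.1 hk).1; omega)
    omega
  rw [← Nat.factorization_prime_le_iff_dvd (prod_ne_zero_iff.2 hne1) (prod_ne_zero_iff.2 hne2)]
  intro p hp
  rw [Nat.factorization_prod hne1, Nat.factorization_prod hne2, Finsupp.finsetSum_apply, Finsupp.finsetSum_apply]
  obtain ⟨E, hE⟩ : ∃ E, E = ∑ k ∈ Ioc 0 (a + R), (u k).factorization p := ⟨_, rfl⟩
  have hle : ∀ k ∈ Ioc 0 (a + R), (u k).factorization p ≤ E := by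
    intro k hk
    rw [hE]
    exact single_le_sum (f := fun k => (u k).factorization p) (fun _ _ => Nat.zero_le _) hk
  have e1 : ∑ k ∈ Ioc 0 R, (u k).factorization p = ∑ e ∈ Ioc 0 E, ((Ioc 0 R).filter fun k => p ^ e ∣ u k).card := by
    rw [sum_congr rfl fun k hk => fact_card hp (hne1 k hk) (hle k (by rw [mem_Ioc] at hk ⊢; omega))]
    simp only [card_filter]
    exact sum_comm
  have e2 : ∑ k ∈ Ioc a (a + R), (u k).factorization p =
      ∑ e ∈ Ioc 0 E, ((Ioc a (a + R)).filter fun k => p ^ e ∣ u k).card := by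
    rw [sum_congr rfl fun k hk => fact_card hp (hne2 k hk) (hle k (by rw [mem_Ioc] at hk ⊢; omega))]
    simp only [card_filter]
    exact sum_comm
  rw [e1, e2]
  exact sum_le_sum fun e _ => h.cnt (p ^ e) a R

/-- the run with indices in `Fin R` -/
theorem StrongDiv.run' {u : ℕ → ℕ} (h : StrongDiv u) (a R : ℕ) :
    ∏ k ∈ Icc 1 R, u k ∣ ∏ i : Fin R, u (a + i + 1) := by
  have e1 : ∏ k ∈ Icc 1 R, u k = ∏ k ∈ Ioc 0 R, u k := by
    refine prod_congr ?_ fun _ _ => rfl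
    ext k
    rw [mem_Icc, mem_Ioc]
    omega
  have e2 : ∏ i : Fin R, u (a + i + 1) = ∏ k ∈ Ioc a (a + R), u k := by
    rw [Fin.prod_univ_eq_prod_range (fun i => u (a + i + 1)) R]
    refine prod_bij' (fun i _ => a + i + 1) (fun k _ => k - a - 1) ?_ ?_ ?_ ?_ ?_
    · intro i hi
      rw [mem_range] at hi
      rw [mem_Ioc]
      omega
    · intro k hk
      rw [mem_Ioc] at hk
      rw [mem_range]
      omega
    · intro i _
      omega
    · intro k hk
      rw [mem_Ioc] at hk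
      omega
    · intro i _
      rfl
  rw [e1, e2]
  exact h.run a R

/-- the positive integers -/
theorem strong_id : StrongDiv (fun k => k) := ⟨fun _ h => h, fun _ _ _ _ => rfl⟩

/-- `g ^ k - 1` -/
theorem strong_pow (g : ℕ) (hg : 2 ≤ g) : StrongDiv (fun k => g ^ k - 1) := by
  refine ⟨fun k hk => ?_, fun i j _ _ => Nat.pow_sub_one_gcd_pow_sub_one g i j⟩
  have h1 : g ^ 1 ≤ g ^ k := Nat.pow_le_pow_right (by omega) hk
  rw [pow_one] at h1
  change 1 ≤ g ^ k - 1
  omega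

/-- the numbers of Fibonacci -/
theorem strong_fib : StrongDiv Nat.fib :=
  ⟨fun _ hk => Nat.fib_pos.2 hk, fun i j _ _ => (Nat.fib_gcd i j).symm⟩

/-- the iterates of a polynomial at zero -/
theorem strong_iter (f : Polynomial ℤ) (hf : ∀ k, 1 ≤ k → (fun y => f.eval y)^[k] 0 ≠ 0) :
    StrongDiv (fun k => ((fun y => f.eval y)^[k] 0).natAbs) := by
  obtain ⟨F, hF⟩ : ∃ F : ℤ → ℤ, F = fun y => f.eval y := ⟨_, rfl⟩
  rw [← hF] at hf ⊢
  have hcong : ∀ (q x y : ℤ), q ∣ x - y → q ∣ F x - F y := by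
    intro q x y h
    rw [hF]
    exact h.trans (Polynomial.sub_dvd_eval_sub x y f)
  have hit : ∀ (m : ℕ) (q x y : ℤ), q ∣ x - y → q ∣ F^[m] x - F^[m] y := by
    intro m
    induction m with
    | zero => intro q x y h; exact h
    | succ m ih =>
      intro q x y h
      rw [Function.iterate_succ_apply, Function.iterate_succ_apply]
      exact ih q _ _ (hcong q x y h)
  have hadd : ∀ k m : ℕ, Int.gcd (F^[k + m] 0) (F^[k] 0) = Int.gcd (F^[m] 0) (F^[k] 0) := by
    intro k m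
    have h1 : F^[k] 0 ∣ F^[k + m] 0 - F^[m] 0 := by
      rw [Nat.add_comm, Function.iterate_add_apply]
      apply hit
      rw [sub_zero]
    obtain ⟨c, hc⟩ := h1
    have h2 : F^[k + m] 0 = F^[m] 0 + F^[k] 0 * c := by linarith
    rw [h2]
    exact Int.gcd_add_mul_left_left _ _ _
  have hmod : ∀ (q k m : ℕ), Int.gcd (F^[k * q + m] 0) (F^[k] 0) = Int.gcd (F^[m] 0) (F^[k] 0) := by
    intro q
    induction q with
    | zero => intro k m; rw [Nat.mul_zero, Nat.zero_add]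
    | succ q ih =>
      intro k m
      have e : k * (q + 1) + m = k + (k * q + m) := by ring
      rw [e, hadd, ih]
  have key : ∀ i j : ℕ, Int.gcd (F^[i] 0) (F^[j] 0) = (F^[Nat.gcd i j] 0).natAbs := by
    intro i j
    induction i, j using Nat.gcd.induction with
    | H0 n =>
      rw [Nat.gcd_zero_left]
      simp
    | H1 m n hm ih =>
      rw [Nat.gcd_rec, ← ih]
      have e : n = m * (n / m) + n % m := (Nat.div_add_mod n m).symm
      conv_lhs => rw [Int.gcd_comm, e]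
      exact hmod (n / m) m (n % m)
  refine ⟨fun k hk => ?_, fun i j _ _ => ?_⟩
  · have := hf k hk
    exact Nat.one_le_iff_ne_zero.2 (Int.natAbs_ne_zero.2 this)
  · have := key i j
    rw [Int.gcd_def] at this
    exact this

/-- `R ^ R ≤ (R !) ^ 2` -/
theorem pow_le_fact (R : ℕ) : R ^ R ≤ (∏ k ∈ Icc 1 R, k) ^ 2 := by
  have e1 : ∏ k ∈ Icc 1 R, k = ∏ i ∈ range R, (i + 1) := by
    rw [Finset.range_eq_Ico, Finset.prod_Ico_add' (fun x => x) 0 R 1]
    rfl
  have e2 : ∏ i ∈ range R, (i + 1) = ∏ i ∈ range R, (R - i) := by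
    rw [← Finset.prod_range_reflect]
    refine prod_congr rfl fun i hi => ?_
    rw [mem_range] at hi
    omega
  have e3 : (∏ k ∈ Icc 1 R, k) ^ 2 = ∏ i ∈ range R, ((i + 1) * (R - i)) := by
    rw [e1, pow_two]
    nth_rewrite 2 [e2]
    rw [← prod_mul_distrib]
  rw [e3]
  calc R ^ R = ∏ _i ∈ range R, R := by rw [prod_const, card_range]
    _ ≤ _ := prod_le_prod' fun i hi => by
      rw [mem_range] at hi
      obtain ⟨c, rfl⟩ : ∃ c, R = i + c := ⟨R - i, by omega⟩
      rw [Nat.add_sub_cancel_left]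
      have hc : 1 ≤ c := by omega
      nlinarith

/-- consecutive integers -/
theorem size_id (n R a c : ℕ) (h : a + (2 * n - 1) * R ≤ R ^ c) :
    ∏ i ∈ range ((2 * n - 1) * R), (a + i + 1) ≤ (∏ k ∈ Icc 1 R, k) ^ (2 * c * (2 * n - 1)) := by
  calc ∏ i ∈ range ((2 * n - 1) * R), (a + i + 1) ≤ ∏ _i ∈ range ((2 * n - 1) * R), R ^ c :=
        prod_le_prod' fun i hi => by
          rw [mem_range] at hi
          omega
    _ = (R ^ R) ^ (c * (2 * n - 1)) := by
        rw [prod_const, card_range, ← pow_mul, ← pow_mul]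
        congr 1
        ring
    _ ≤ ((∏ k ∈ Icc 1 R, k) ^ 2) ^ (c * (2 * n - 1)) := Nat.pow_le_pow_left (pow_le_fact R) _
    _ = _ := by
        rw [← pow_mul]
        congr 1
        ring

/-- powers minus one -/
theorem size_pow (g n R a c : ℕ) (hg : 2 ≤ g) (hR : 2 ≤ R) (h : a ≤ c * ((2 * n - 1) * R)) :
    ∏ i ∈ range ((2 * n - 1) * R), (g ^ (a + i + 1) - 1) ≤ (∏ k ∈ Icc 1 R, (g ^ k - 1)) ^ (4 * (c + 1) * (2 * n - 1) ^ 2) := by
  obtain ⟨r, hr⟩ : ∃ r, r = (2 * n - 1) * R := ⟨_, rfl⟩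
  rw [← hr] at h ⊢
  have h1 : ∏ i ∈ range r, (g ^ (a + i + 1) - 1) ≤ g ^ (r * (a + r)) := by
    calc ∏ i ∈ range r, (g ^ (a + i + 1) - 1) ≤ ∏ _i ∈ range r, g ^ (a + r) := prod_le_prod' fun i hi => by
          rw [mem_range] at hi
          exact (Nat.sub_le _ _).trans (Nat.pow_le_pow_right (by omega) (by omega))
      _ = g ^ (r * (a + r)) := by
          rw [prod_const, card_range, ← pow_mul, mul_comm]
  have h2 : g ^ (∑ k ∈ range R, k) ≤ ∏ k ∈ Icc 1 R, (g ^ k - 1) := by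
    have e1 : ∏ k ∈ Icc 1 R, (g ^ k - 1) = ∏ i ∈ range R, (g ^ (i + 1) - 1) := by
      rw [Finset.range_eq_Ico, Finset.prod_Ico_add' (fun x => g ^ x - 1) 0 R 1]
      rfl
    rw [e1, ← prod_pow_eq_pow_sum]
    refine prod_le_prod' fun i _ => ?_
    have h3 : 1 ≤ g ^ i := Nat.one_le_pow _ _ (by omega)
    have h4 : g ^ (i + 1) = g ^ i * g := pow_succ g i
    have h5 : g ^ i * 2 ≤ g ^ i * g := Nat.mul_le_mul_left _ hg
    omega
  have h3 : (∑ k ∈ range R, k) * 2 = R * (R - 1) := Finset.sum_range_id_mul_two R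
  refine h1.trans ?_
  calc g ^ (r * (a + r)) ≤ g ^ ((∑ k ∈ range R, k) * (4 * (c + 1) * (2 * n - 1) ^ 2)) := by
        apply Nat.pow_le_pow_right (by omega)
        have h4 : r * (a + r) ≤ (c + 1) * (r * r) := by nlinarith
        have h5 : r * r = (2 * n - 1) ^ 2 * (R * R) := by rw [hr]; ring
        have h6 : R * R ≤ 2 * (R * (R - 1)) := by
          obtain ⟨s, rfl⟩ : ∃ s, R = s + 2 := ⟨R - 2, by omega⟩
          have : s + 2 - 1 = s + 1 := by omega
          rw [this]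
          nlinarith
        calc r * (a + r) ≤ (c + 1) * (r * r) := h4
          _ = (c + 1) * (2 * n - 1) ^ 2 * (R * R) := by rw [h5]; ring
          _ ≤ (c + 1) * (2 * n - 1) ^ 2 * (2 * (R * (R - 1))) := Nat.mul_le_mul_left _ h6
          _ = _ := by rw [← h3]; ring
    _ = (g ^ (∑ k ∈ range R, k)) ^ (4 * (c + 1) * (2 * n - 1) ^ 2) := pow_mul _ _ _
    _ ≤ _ := Nat.pow_le_pow_left h2 _

end Pool.Agent.Run7.h582.DS
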